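import Mathlib

set_option autoImplicit false

namespace Pool.Agent.Results.MP_bd2bbd_co.Counter

def IsPath {n : ℕ} (u v : Fin n) (l : List (Fin n)) : Prop :=
  l.head? = some u ∧ l.getLast? = some v ∧ l.Nodup

def weight {n : ℕ} (w : Sym2 (Fin n) → ℝ) (l : List (Fin n)) : ℝ :=
  (List.zipWith (fun a b => w s(a, b)) l l.tail).sum

instance {n : ℕ} (u v : Fin n) : DecidablePred (IsPath u v) :=
  fun _ => inferInstanceAs (Decidable (_ ∧ _ ∧ _))

def P (u v : Fin 7) : List (Fin 7) :=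
  if u = v then [u] else
  match ([((0, 3), 1), ((4, 5), 3), ((0, 5), 2), ((2, 3), 6), ((1, 6), 5), ((0, 6), 4)] :
    List ((Fin 7 × Fin 7) × Fin 7)).lookup (min u v, max u v) with
  | some z => [u, z, v]
  | none => [u, v]

theorem result : ∃ (n : ℕ) (P : Fin n → Fin n → List (Fin n)),
    (∀ u v, IsPath u v (P u v)) ∧ (∀ u v, P v u = (P u v).reverse) ∧
    (∀ u v, ∀ a ∈ P u v, P u v = P u a ++ (P a v).tail) ∧
    (∀ u v, (P u v).length ≤ 3) ∧ (∃ u v, (P u v).length = 3) ∧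
    (∀ i j k a b, P i j = [i, a, j] → P i k = [i, b, k] → j ≤ k → a ≤ b) ∧
    ¬ ∃ w : Sym2 (Fin n) → ℝ, (∀ e, ¬ e.IsDiag → 0 < w e) ∧ ∀ u v, u ≠ v → ∀ Q, IsPath u v Q →
      Q ≠ P u v → weight w (P u v) < weight w Q := by
  refine ⟨7, P, by decide, by decide, by decide, by decide, by decide, by decide +kernel, ?_⟩
  rintro ⟨w, -, h⟩
  have h1 := h 0 3 (by decide) [0, 4, 3] (by decide) (by decide)
  have h2 := h 0 5 (by decide) [0, 1, 5] (by decide) (by decide)
  have h3 := h 0 6 (by decide) [0, 2, 6] (by decide) (by decide)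
  have h4 := h 1 6 (by decide) [1, 3, 6] (by decide) (by decide)
  have h5 := h 2 3 (by decide) [2, 5, 3] (by decide) (by decide)
  have h6 := h 4 5 (by decide) [4, 6, 5] (by decide) (by decide)
  rw [show P 0 3 = [0, 1, 3] by decide] at h1
  rw [show P 0 5 = [0, 2, 5] by decide] at h2
  rw [show P 0 6 = [0, 4, 6] by decide] at h3
  rw [show P 1 6 = [1, 5, 6] by decide] at h4
  rw [show P 2 3 = [2, 6, 3] by decide] at h5
  rw [show P 4 5 = [4, 3, 5] by decide] at h6
  simp only [weight, List.tail, List.zipWith, List.sum_cons, List.sum_nil] at *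
  rw [Sym2.eq_swap (a := 6) (b := 3), Sym2.eq_swap (a := 5) (b := 3)] at h5
  rw [Sym2.eq_swap (a := 6) (b := 5)] at h6
  linarith

end Pool.Agent.Results.MP_bd2bbd_co.Counter
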